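import Pool.Agent.K1H77.CG.Final

/-! # Typical degrees in the graph of Whitehead moves on unlabelled cubic graphs

There is a sequence `d n → ∞` such that almost all isomorphism classes of connected cubic multigraphs
with `n` vertices (`n` even) have at least `d n` neighbours in the graph `Γᵘ_n` of the Whitehead
moves. -/

set_option autoImplicit false

open Filter Topology Pool.Agent.K1H77.CG

theorem Pool.Agent.Results.MP_992c04_co.TypicalDegree.result :
    ∃ d : ℕ → ℕ, Tendsto d atTop atTop ∧
      Tendsto (fun k : ℕ =>
        ({x : Cls (2 * k) | d (2 * k) ≤ ((Gam (2 * k)).neighborSet x).ncard}.ncard : ℝ) /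
          (Nat.card (Cls (2 * k)) : ℝ)) atTop (𝓝 1) :=
  Pool.Agent.K1H77.CG.main
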